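import Pool.Agent.Y7.LN.Stm2

/-!
Project LN, second part: from the thresholds to the rate (job LN2-RT).
-/

set_option autoImplicit false

namespace Pool.Agent.Y899.LN

open Set Filter Topology
open Pool.Agent.Y7.LN (Slow S_RT)

/-- From the thresholds to the rate. -/
theorem t_RT : S_RT := by
  intro L b Θ X f hΘ hX hL1 hmono hLtop hslow hb hbr hf ε hε
  obtain ⟨e, he0, he1, he2⟩ : ∃ e : ℝ, 0 < e ∧ e ≤ 1 / 100 ∧ 100 * e ≤ ε := by
    refine ⟨min ε 1 / 100, ?_, ?_, ?_⟩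
    · have : 0 < min ε 1 := lt_min hε one_pos
      linarith
    · have : min ε 1 ≤ 1 := min_le_right _ _
      linarith
    · have : min ε 1 ≤ ε := min_le_left _ _
      linarith
  obtain ⟨n1, h1⟩ := hslow e he0
  obtain ⟨n2, h2⟩ := hbr e he0
  have hq0 : 0 < 3 / 5 + ε := by linarith
  have hpq : (1 + e) * ((1 + e) * ((1 + e) * ((1 + e) * (3 / 5)))) ≤ (1 - e) * (3 / 5 + ε) := by
    have e1 : (1 + e) * (1 + e) ≤ 1 + 201 / 100 * e := by nlinarith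
    have e2 : (1 + 201 / 100 * e) * (1 + 201 / 100 * e) ≤ 1 + 5 * e := by nlinarith
    have e0 : 0 ≤ (1 + e) * (1 + e) := by positivity
    have e3 : ((1 + e) * (1 + e)) * ((1 + e) * (1 + e)) ≤ 1 + 5 * e :=
      (mul_le_mul e1 e1 e0 (by linarith)).trans e2
    have e4 : 0 ≤ (ε - 100 * e) * (1 - e) := mul_nonneg (by linarith) (by linarith)
    nlinarith
  have hex : ∀ τ > (0 : ℝ), ∃ k, b k < τ := by
    intro τ hτ
    have ht : Tendsto (fun n => L n ^ (-(1 - e))) atTop (𝓝 0) :=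
      (tendsto_rpow_neg_atTop (by linarith)).comp hLtop
    obtain ⟨k, hk1, hk2⟩ := ((ht.eventually_lt_const hτ).and (eventually_ge_atTop n2)).exists
    refine ⟨k, (h2 k hk2).trans_lt ?_⟩
    have : -1 + e = -(1 - e) := by ring
    rw [this]
    exact hk1
  set C0 : ℝ := L (max n1 n2 + 3) ^ (3 / 5 : ℝ) + 1 with hC0
  have hC00 : 0 ≤ C0 := by
    have := Real.rpow_nonneg (zero_le_one.trans (hL1 (max n1 n2 + 3))) (3 / 5 : ℝ)
    linarith
  refine ⟨X * C0 * Θ ^ (3 / 5 + ε) + 2 * X, ?_⟩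
  intro τ hτ
  have hτ0 : 0 < τ := hτ.1
  have hτq : 0 < τ ^ (-(3 / 5 + ε)) := Real.rpow_pos_of_pos hτ0 _
  classical
  obtain ⟨k, hk, hmin⟩ : ∃ k, b k < τ ∧ ∀ j < k, ¬ b j < τ :=
    ⟨Nat.find (hex τ hτ0), Nat.find_spec (hex τ hτ0), fun j hj => Nat.find_min (hex τ hτ0) hj⟩
  have hfk := hf k τ hτ hk
  by_cases hkn : k ≤ max n1 n2
  · have e1 : L (k + 3) ^ (3 / 5 : ℝ) + 1 ≤ C0 := by
      have := Real.rpow_le_rpow (zero_le_one.trans (hL1 (k + 3))) (hmono (by omega :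
        k + 3 ≤ max n1 n2 + 3)) (by norm_num : (0 : ℝ) ≤ 3 / 5)
      linarith
    have e2 : 1 ≤ Θ ^ (3 / 5 + ε) * τ ^ (-(3 / 5 + ε)) := by
      rw [Real.rpow_neg hτ0.le, ← div_eq_mul_inv, one_le_div (Real.rpow_pos_of_pos hτ0 _)]
      exact Real.rpow_le_rpow hτ0.le hτ.2 hq0.le
    have e3 : f τ ≤ X * C0 := hfk.trans (mul_le_mul_of_nonneg_left e1 hX)
    have e4 : X * C0 * 1 ≤ X * C0 * (Θ ^ (3 / 5 + ε) * τ ^ (-(3 / 5 + ε))) :=
      mul_le_mul_of_nonneg_left e2 (mul_nonneg hX hC00)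
    have e5 : 0 ≤ 2 * X * τ ^ (-(3 / 5 + ε)) := by positivity
    nlinarith
  · obtain ⟨j, rfl⟩ : ∃ j, k = j + 1 := ⟨k - 1, by omega⟩
    have hj1 : n1 ≤ j := by omega
    have hj2 : n2 ≤ j := by omega
    have hpos : ∀ n, 0 < L n := fun n => zero_lt_one.trans_le (hL1 n)
    have hbj := hmin j (by omega)
    rw [not_lt] at hbj
    have hτy : τ ≤ L j ^ (-1 + e) := hbj.trans (h2 j hj2)
    have step : ∀ (n : ℕ) (c : ℝ), n1 ≤ n → 0 ≤ c → L (n + 1) ^ c ≤ L n ^ ((1 + e) * c) := by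
      intro n c hn hc
      rw [Real.rpow_mul (hpos n).le]
      exact Real.rpow_le_rpow (hpos _).le (h1 n hn) hc
    have e1 : L (j + 1 + 3) ^ (3 / 5 : ℝ) ≤
        L j ^ ((1 + e) * ((1 + e) * ((1 + e) * ((1 + e) * (3 / 5))))) :=
      ((step (j + 3) _ (by omega) (by norm_num)).trans
        (step (j + 2) _ (by omega) (by positivity))).trans
        ((step (j + 1) _ (by omega) (by positivity)).trans (step j _ hj1 (by positivity)))
    have e2 : L j ^ ((1 + e) * ((1 + e) * ((1 + e) * ((1 + e) * (3 / 5))))) ≤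
        L j ^ ((1 - e) * (3 / 5 + ε)) := Real.rpow_le_rpow_of_exponent_le (hL1 j) hpq
    have e3 : L j ^ ((1 - e) * (3 / 5 + ε)) ≤ τ ^ (-(3 / 5 + ε)) := by
      rw [Real.rpow_mul (hpos j).le, Real.rpow_neg hτ0.le, ← Real.inv_rpow hτ0.le]
      apply Real.rpow_le_rpow (Real.rpow_nonneg (hpos j).le _) _ hq0.le
      rw [le_inv_comm₀ (Real.rpow_pos_of_pos (hpos j) _) hτ0, ← Real.rpow_neg (hpos j).le]
      have : -(1 - e) = -1 + e := by ring
      rw [this]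
      exact hτy
    have e4 : 1 ≤ L (j + 1 + 3) ^ (3 / 5 : ℝ) := Real.one_le_rpow (hL1 _) (by norm_num)
    have e5 : f τ ≤ 2 * X * τ ^ (-(3 / 5 + ε)) := by
      refine hfk.trans ?_
      have e6 : L (j + 1 + 3) ^ (3 / 5 : ℝ) + 1 ≤ 2 * τ ^ (-(3 / 5 + ε)) := by linarith
      calc X * (L (j + 1 + 3) ^ (3 / 5 : ℝ) + 1) ≤ X * (2 * τ ^ (-(3 / 5 + ε))) :=
            mul_le_mul_of_nonneg_left e6 hX
        _ = 2 * X * τ ^ (-(3 / 5 + ε)) := by ring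
    have e7 : 0 ≤ X * C0 * Θ ^ (3 / 5 + ε) * τ ^ (-(3 / 5 + ε)) :=
      mul_nonneg (mul_nonneg (mul_nonneg hX hC00) (Real.rpow_nonneg hΘ.le _)) hτq.le
    linarith

end Pool.Agent.Y899.LN
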